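import Pool.Agent.Y298.EX.Stm

/-!
# Project EX, task INV: inverse of a map with small distortion (helper87)
-/

set_option autoImplicit false

open Set Filter Metric Topology

namespace Pool.Agent.Y87.EX

theorem inv_aux (F : ℂ → ℂ) (w D : ℂ) (ρ : ℝ) (hρ : 0 < ρ) (hD : D ≠ 0)
    (hF : DifferentiableOn ℂ F (ball w ρ))
    (hd : ∀ w' ∈ ball w ρ, ‖deriv F w' - D‖ ≤ 1 / 4 * ‖D‖) :
    ∃ G : ℂ → ℂ, DifferentiableOn ℂ G (ball (F w) (‖D‖ * ρ / 2)) ∧
      ∀ y ∈ ball (F w) (‖D‖ * ρ / 2), G y ∈ ball w ρ ∧ F (G y) = y := by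
  have hDn : 0 < ‖D‖ := norm_pos_iff.2 hD
  have hdiff : ∀ x ∈ ball w ρ, DifferentiableAt ℂ F x := fun x hx =>
    hF.differentiableAt (isOpen_ball.mem_nhds hx)
  -- the distortion
  have hdist : ∀ x ∈ ball w ρ, ∀ x' ∈ ball w ρ,
      ‖(F x' - D * x') - (F x - D * x)‖ ≤ 1 / 4 * ‖D‖ * ‖x' - x‖ := by
    intro x hx x' hx'
    refine (convex_ball w ρ).norm_image_sub_le_of_norm_deriv_le (𝕜 := ℂ)
      (f := fun z => F z - D * z) ?_ ?_ hx hx'
    · intro z hz
      exact (hdiff z hz).sub (differentiableAt_id.const_mul D)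
    · intro z hz
      have h1 : HasDerivAt (fun z => F z - D * z) (deriv F z - D * 1) z :=
        (hdiff z hz).hasDerivAt.sub ((hasDerivAt_id z).const_mul D)
      rw [h1.deriv, mul_one]
      exact hd z hz
  have hlow : ∀ x ∈ ball w ρ, ∀ x' ∈ ball w ρ, 3 / 4 * ‖D‖ * ‖x' - x‖ ≤ ‖F x' - F x‖ := by
    intro x hx x' hx'
    have h1 := hdist x hx x' hx'
    have h2 : ‖D * (x' - x)‖ ≤ ‖F x' - F x‖ + ‖(F x' - D * x') - (F x - D * x)‖ := by
      have h3 : D * (x' - x) = (F x' - F x) - ((F x' - D * x') - (F x - D * x)) := by ring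
      rw [h3]
      exact norm_sub_le _ _
    rw [norm_mul] at h2
    nlinarith
  -- the preimages
  have hex : ∀ y ∈ ball (F w) (‖D‖ * ρ / 2), ∃ x ∈ ball w ρ, F x = y := by
    intro y hy
    let T : ℂ → ℂ := fun x => x + (y - F x) / D
    have hT : ∀ x ∈ ball w ρ, ∀ x' ∈ ball w ρ, ‖T x' - T x‖ ≤ 1 / 4 * ‖x' - x‖ := by
      intro x hx x' hx'
      have h1 : T x' - T x = -(((F x' - D * x') - (F x - D * x)) / D) := by
        simp only [T]
        field_simp
        ring
      rw [h1, norm_neg, norm_div, div_le_iff₀ hDn]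
      calc _ ≤ 1 / 4 * ‖D‖ * ‖x' - x‖ := hdist x hx x' hx'
        _ = _ := by ring
    have hsub : closedBall w (2 / 3 * ρ) ⊆ ball w ρ := closedBall_subset_ball (by linarith)
    have hTw : ‖T w - w‖ ≤ ρ / 2 := by
      have h1 : T w - w = (y - F w) / D := by simp only [T]; ring
      rw [h1, norm_div, div_le_iff₀ hDn]
      rw [mem_ball, dist_eq_norm] at hy
      linarith
    have hmaps : MapsTo T (closedBall w (2 / 3 * ρ)) (closedBall w (2 / 3 * ρ)) := by
      intro x hx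
      have h1 := hT w (mem_ball_self hρ) x (hsub hx)
      rw [mem_closedBall, dist_eq_norm] at hx ⊢
      have h2 : T x - w = (T x - T w) + (T w - w) := by ring
      rw [h2]
      refine (norm_add_le _ _).trans ?_
      linarith
    have hcon : ContractingWith (1 / 4) (hmaps.restrict T _ _) := by
      refine ⟨by rw [div_lt_one (by norm_num)]; norm_num, LipschitzWith.of_dist_le_mul ?_⟩
      intro x x'
      rw [Subtype.dist_eq, Subtype.dist_eq, dist_eq_norm, dist_eq_norm]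
      have := hT x' (hsub x'.2) x (hsub x.2)
      simpa using this
    obtain ⟨x, hx, hfix, -⟩ := hcon.exists_fixedPoint' isClosed_closedBall.isComplete hmaps
      (mem_closedBall_self (by linarith)) (edist_ne_top w (T w))
    refine ⟨x, hsub hx, ?_⟩
    have h1 : x + (y - F x) / D = x := hfix
    have h2 : (y - F x) / D = 0 := by linear_combination h1
    rcases div_eq_zero_iff.1 h2 with h3 | h3
    · exact (sub_eq_zero.1 h3).symm
    · exact absurd h3 hD
  classical
  choose! G hG1 hG2 using hex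
  refine ⟨G, ?_, fun y hy => ⟨hG1 y hy, hG2 y hy⟩⟩
  intro a ha
  have hnh : ball (F w) (‖D‖ * ρ / 2) ∈ 𝓝 a := isOpen_ball.mem_nhds ha
  have hcont : ContinuousAt G a := by
    rw [Metric.continuousAt_iff]
    intro ε hε
    obtain ⟨δ, hδ, hδ'⟩ := Metric.mem_nhds_iff.1 hnh
    refine ⟨min δ (3 / 4 * ‖D‖ * ε), lt_min hδ (by positivity), ?_⟩
    intro y hy
    have hy1 : y ∈ ball (F w) (‖D‖ * ρ / 2) := hδ' (lt_of_lt_of_le hy (min_le_left _ _))
    have h1 := hlow (G a) (hG1 a ha) (G y) (hG1 y hy1)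
    rw [hG2 a ha, hG2 y hy1] at h1
    rw [dist_eq_norm] at hy ⊢
    have h2 : 3 / 4 * ‖D‖ * ‖G y - G a‖ < 3 / 4 * ‖D‖ * ε :=
      lt_of_le_of_lt h1 (lt_of_lt_of_le hy (min_le_right _ _))
    exact lt_of_mul_lt_mul_left h2 (by positivity)
  have hne : deriv F (G a) ≠ 0 := by
    intro h
    have h1 := hd (G a) (hG1 a ha)
    rw [h, zero_sub, norm_neg] at h1
    linarith
  exact (HasDerivAt.of_local_left_inverse hcont (hdiff (G a) (hG1 a ha)).hasDerivAt hne
    (eventually_of_mem hnh fun y hy => hG2 y hy)).differentiableAt.differentiableWithinAt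

theorem t : Pool.Agent.Y298.EX.S_INV := inv_aux

end Pool.Agent.Y87.EX
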